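import Pool.Agent.H65.CM4.Targets1b

/-!
# The number of the indices (row A_NI of the board `cm4_modules`)
-/

set_option autoImplicit false

open MeasureTheory Set Filter NumberField NumberField.InfinitePlace Pool.Agent.H65.CM4
open scoped Real

namespace Pool.Agent.H15.CM4

variable (k : Type) [Field k] [NumberField k] [IsTotallyReal k]

theorem nn_nonneg' {k : Type} [Field k] [NumberField k] [IsTotallyReal k] {r : ℝ} (hr : 0 ≤ r)
    (u : V2 k) : 0 ≤ nn r u := by
  unfold nn nr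
  exact Finset.prod_nonneg fun v _ => add_nonneg (div_nonneg (sq_nonneg _) hr)
    (mul_nonneg hr (sq_nonneg _))

theorem pf_NI (hEMB : T_EMB k) (hBXC : T_BXC k) (hNW : T_NW k) (hW10 : T_W10 k) (hIDC : T_IDC k)
    (hRPC : T_RPC k) : T_NI k := by
  classical
  intro R C₁ hC₁
  obtain ⟨_, _, _, _, _, _, _, _, _, _, hE1, hE2⟩ := hEMB
  obtain ⟨C, hC, hN⟩ := hNW
  obtain ⟨hId, _, D, hD, hDb⟩ := hIDC
  refine ⟨(1 + C * C₁) * (D * D), ?_, ?_⟩
  · have h1 : 1 ≤ 1 + C * C₁ := by nlinarith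
    have h2 : 1 ≤ D * D := by nlinarith
    nlinarith
  intro r A I hr hA hI
  have hA0 : (0 : ℝ) ≤ A := by linarith
  have hr0 : (0 : ℝ) < r := by linarith
  -- bounds for an index
  have hb : ∀ x ∈ I, nm x.2.1.1 ≤ A ∧ nm (den x.2.2) ≤ A ∧ nn r x.1 ≤ C₁ * A ∧
      den x.2.2 ≠ ⊥ := by
    intro x hx
    have h := hI x hx
    have hd : den x.2.2 ≠ ⊥ := (hE2 x.2.2 x.2.2).1
    have h1 : 1 ≤ nm x.2.1.1 := (hE1 _ h.f).1
    have h2 : 1 ≤ nm (den x.2.2) := (hE1 _ hd).1
    have h3 := h.le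
    have h4 : nm x.2.1.1 ≤ A := by nlinarith
    have h5 : nm (den x.2.2) ≤ A := by nlinarith
    refine ⟨h4, h5, ?_, hd⟩
    have h6 := h.sh
    have h7 := nn_nonneg' hr0.le x.1
    have h8 : nn r x.1 ≤ nm x.2.1.1 * nn r x.1 := by nlinarith
    have h9 : C₁ * nm (den x.2.2) ≤ C₁ * A := mul_le_mul_of_nonneg_left h5 (by linarith)
    linarith
  -- the four factors
  let WW : Finset (V2 k) := I.image (fun x => x.1)
  let GG : Finset ℕ := Finset.range (⌊A⌋₊ ^ 2)
  let UU : Finset k := I.image (fun x => x.2.2)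
  have hsub : I ⊆ WW ×ˢ ((Id k A ×ˢ GG) ×ˢ UU) := by
    intro x hx
    obtain ⟨h1, h2, h3, h4⟩ := hb x hx
    have h := hI x hx
    refine Finset.mem_product.2 ⟨Finset.mem_image_of_mem _ hx, Finset.mem_product.2
      ⟨Finset.mem_product.2 ⟨(hId A x.2.1.1).2 ⟨h.f, h1⟩, ?_⟩, Finset.mem_image_of_mem _ hx⟩⟩
    refine Finset.mem_range.2 (lt_of_lt_of_le h.g ?_)
    exact Nat.pow_le_pow_left (Nat.le_floor h1) 2
  have hW : (WW.card : ℝ) ≤ 1 + C * (C₁ * A) := by
    have h1 : WW.card = (WW.filter (fun w => w.2 = 0)).card +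
        (WW.filter (fun w => ¬ w.2 = 0)).card := by
      rw [Finset.card_filter_add_card_filter_not]
    have h2 : (WW.filter (fun w => w.2 = 0)).card ≤ 1 := by
      rw [Finset.card_le_one]
      intro a ha b hb'
      rw [Finset.mem_filter] at ha hb'
      have hWm : ∀ w ∈ WW, w ∈ R.W := by
        intro w hw
        obtain ⟨x, hx, rfl⟩ := Finset.mem_image.1 hw
        exact (hI x hx).wm
      exact ((hW10 R r b hr0 (hWm b hb'.1) hb'.2).1 a (hWm a ha.1) ha.2)
    have h3 := (hN R r (C₁ * A) (WW.filter (fun w => ¬ w.2 = 0)) hr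
      (mul_nonneg (by linarith) hA0) (by
        intro w hw
        rw [Finset.mem_filter] at hw
        obtain ⟨x, hx, hxw⟩ := Finset.mem_image.1 hw.1
        refine ⟨?_, hw.2, ?_⟩
        · rw [← hxw]; exact (hI x hx).wm
        · rw [← hxw]; exact (hb x hx).2.2.1)).1
    rw [h1]
    push_cast
    have h4 : ((WW.filter (fun w => w.2 = 0)).card : ℝ) ≤ 1 := by exact_mod_cast h2
    linarith
  have hF : ((Id k A).card : ℝ) ≤ D * A := (hDb A hA).1
  have hG : (GG.card : ℝ) ≤ A ^ 2 := by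
    have h1 : GG.card = ⌊A⌋₊ ^ 2 := Finset.card_range _
    rw [h1]
    push_cast
    exact pow_le_pow_left₀ (Nat.cast_nonneg _) (Nat.floor_le hA0) 2
  have hU : (UU.card : ℝ) ≤ D * A * A := by
    have h1 : ∀ J ∈ Id k A, ∃ T : Finset k, (∀ a, a ∈ T ↔ a ∈ R.U ∧ J ≤ den a) ∧
        T.card = Ideal.absNorm J := by
      intro J hJ
      obtain ⟨h2, h3⟩ := hRPC R J ((hId A J).1 hJ).1
      refine ⟨h2.toFinset, fun a => ?_, ?_⟩
      · rw [Set.Finite.mem_toFinset]; rfl
      · rw [← h3, Set.ncard_eq_toFinset_card _ h2]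
    choose! T hT hTc using h1
    have h2 : UU ⊆ (Id k A).biUnion T := by
      intro a ha
      obtain ⟨x, hx, rfl⟩ := Finset.mem_image.1 ha
      obtain ⟨_, h4, _, h6⟩ := hb x hx
      have h7 : den x.2.2 ∈ Id k A := (hId A _).2 ⟨h6, h4⟩
      exact Finset.mem_biUnion.2 ⟨_, h7, (hT _ h7 _).2 ⟨(hI x hx).u, le_refl _⟩⟩
    have h3 : (UU.card : ℝ) ≤ ∑ J ∈ Id k A, ((T J).card : ℝ) := by
      have h4 := (Finset.card_le_card h2).trans Finset.card_biUnion_le
      exact_mod_cast h4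
    have h5 : ∑ J ∈ Id k A, ((T J).card : ℝ) ≤ ∑ J ∈ Id k A, A := by
      refine Finset.sum_le_sum fun J hJ => ?_
      rw [hTc J hJ]
      exact ((hId A J).1 hJ).2
    rw [Finset.sum_const, nsmul_eq_mul] at h5
    have h6 : ((Id k A).card : ℝ) * A ≤ D * A * A := mul_le_mul_of_nonneg_right hF hA0
    linarith
  have hcard : (I.card : ℝ) ≤ WW.card * (((Id k A).card * GG.card) * UU.card) := by
    have h1 := Finset.card_le_card hsub
    rw [Finset.card_product, Finset.card_product, Finset.card_product] at h1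
    exact_mod_cast h1
  refine hcard.trans ?_
  have hW' : (WW.card : ℝ) ≤ (1 + C * C₁) * A := by nlinarith
  calc (WW.card : ℝ) * (((Id k A).card * GG.card) * UU.card)
      ≤ ((1 + C * C₁) * A) * (((D * A) * A ^ 2) * (D * A * A)) := by gcongr
    _ = (1 + C * C₁) * (D * D) * A ^ 6 := by ring
    _ ≤ (1 + C * C₁) * (D * D) * A ^ 7 := by
        refine mul_le_mul_of_nonneg_left (pow_le_pow_right₀ hA (by norm_num)) ?_
        have : 0 ≤ 1 + C * C₁ := by nlinarith
        have : 0 ≤ D * D := by nlinarith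
        positivity

end Pool.Agent.H15.CM4
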